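import Mathlib

/-!
# Unions of rotated copies of the triangular lattice
-/

set_option autoImplicit false

open Filter Topology

namespace Pool.Agent.Q3.Forest

/-- The generator `1/2 + i √3/2`. -/
noncomputable def ζ : ℂ := ⟨1 / 2, √3 / 2⟩

/-- The lattice point `a + b ζ`. -/
noncomputable def pt (a b : ℤ) : ℂ := a + b * ζ

theorem s3 : √3 * √3 = 3 := Real.mul_self_sqrt (by norm_num)

theorem s3pos : 0 < √3 := Real.sqrt_pos.mpr (by norm_num)

theorem pt_re (a b : ℤ) : (pt a b).re = a + b / 2 := by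
  simp [pt, ζ]; ring

theorem pt_im (a b : ℤ) : (pt a b).im = b * (√3 / 2) := by
  simp [pt, ζ]

theorem pt_add (a b c d : ℤ) : pt a b + pt c d = pt (a + c) (b + d) := by
  simp only [pt]; push_cast; ring

theorem pt_sub (a b c d : ℤ) : pt a b - pt c d = pt (a - c) (b - d) := by
  simp only [pt]; push_cast; ring

theorem zeta_sq : ζ * ζ = ζ - 1 := by
  apply Complex.ext
  · simp [ζ]; nlinarith [s3]
  · simp [ζ]; ring

theorem pt_mul (a b c d : ℤ) : pt a b * pt c d = pt (a * c - b * d) (a * d + b * c + b * d) := by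
  simp only [pt]; push_cast
  linear_combination (b : ℂ) * d * zeta_sq

theorem pt_conj (a b : ℤ) : (starRingEnd ℂ) (pt a b) = pt (a + b) (-b) := by
  apply Complex.ext
  · rw [Complex.conj_re, pt_re, pt_re]; push_cast; ring
  · rw [Complex.conj_im, pt_im, pt_im]; push_cast; ring

theorem pt_eq_zero (a b : ℤ) (h : pt a b = 0) : a = 0 ∧ b = 0 := by
  have h1 := congrArg Complex.im h
  have h2 := congrArg Complex.re h
  rw [pt_im, Complex.zero_im] at h1
  rw [pt_re, Complex.zero_re] at h2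
  have hb : (b : ℝ) = 0 := by
    rcases mul_eq_zero.mp h1 with h3 | h3
    · exact h3
    · have := s3pos; linarith
  rw [hb] at h2
  constructor
  · have : (a : ℝ) = 0 := by linarith
    exact_mod_cast this
  · exact_mod_cast hb

/-- Every complex number is close to a lattice point. -/
theorem near (w : ℂ) : ∃ a b : ℤ, ‖w - pt a b‖ ≤ 1 := by
  set y : ℝ := w.im / (√3 / 2) with hy
  set b : ℤ := round y with hb
  set x : ℝ := w.re - b / 2 with hx
  set a : ℤ := round x with ha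
  refine ⟨a, b, ?_⟩
  have h3 := s3
  have h3p := s3pos
  have h1 : |y - b| ≤ 1 / 2 := abs_sub_round y
  have h2 : |x - a| ≤ 1 / 2 := abs_sub_round x
  have him : (w - pt a b).im = (√3 / 2) * (y - b) := by
    rw [Complex.sub_im, pt_im, hy]; field_simp
  have hre : (w - pt a b).re = x - a := by
    rw [Complex.sub_re, pt_re, hx]; ring
  have h4 : ‖w - pt a b‖ ^ 2 ≤ 1 := by
    rw [← Complex.normSq_eq_norm_sq, Complex.normSq_apply, him, hre]
    have h5 : (x - a) * (x - a) ≤ 1 / 4 := by nlinarith [abs_le.mp h2]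
    have h6 : (y - b) * (y - b) ≤ 1 / 4 := by nlinarith [abs_le.mp h1]
    have h7 : √3 / 2 * (y - b) * (√3 / 2 * (y - b)) = 3 / 4 * ((y - b) * (y - b)) := by
      linear_combination ((y - b) * (y - b) / 4) * h3
    rw [h7]
    linarith
  nlinarith [norm_nonneg (w - pt a b)]

/-- A line that stays away from the lattice has a lattice direction. -/
theorem line_dir (m ω : ℂ) (ε : ℝ) (hε : 0 < ε)
    (h : ∀ t : ℝ, ∀ a b : ℤ, ε ≤ ‖m + t * ω - pt a b‖) :
    ∃ (a b : ℤ) (s : ℝ), pt a b ≠ 0 ∧ ω = s * pt a b := by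
  have h3 := s3
  have h3p := s3pos
  set β : ℝ := ω.im / (√3 / 2) with hβ
  set α : ℝ := ω.re - β / 2 with hα
  have hβ' : β * (√3 / 2) = ω.im := div_mul_cancel₀ _ (by positivity)
  clear_value β
  have hωe : ω = α + β * ζ := by
    apply Complex.ext
    · simp [ζ, hα]; ring
    · simp [ζ]; linarith
  set ν : ℝ := m.im / (√3 / 2) with hν
  set μ : ℝ := m.re - ν / 2 with hμ
  have hν' : ν * (√3 / 2) = m.im := div_mul_cancel₀ _ (by positivity)
  clear_value ν
  have hme : m = μ + ν * ζ := by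
    apply Complex.ext
    · simp [ζ, hμ]; ring
    · simp [ζ]; linarith
  by_cases hβ0 : β = 0
  · refine ⟨1, 0, α, ?_, ?_⟩
    · intro h0
      have := pt_eq_zero 1 0 h0
      omega
    · rw [hωe, hβ0]; simp [pt]
  · by_cases hrat : Irrational (α / β)
    · exfalso
      -- density of the multiples of α/β modulo one
      have hd := (dense_addSubgroupClosure_pair_iff (a := α / β) (b := 1)).mpr (by rwa [div_one])
      have hd2 := hd.exists_dist_lt (-(μ - ν * (α / β))) hε
      obtain ⟨g, hg, hdist⟩ := hd2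
      rw [SetLike.mem_coe, AddSubgroup.mem_closure_pair] at hg
      obtain ⟨p, q, hpq⟩ := hg
      simp only [zsmul_eq_mul, mul_one] at hpq
      have h1 := h ((p - ν) / β) (-q) p
      have h2 : m + (((p - ν) / β : ℝ) : ℂ) * ω - pt (-q) p = ((μ - ν * (α / β) + g : ℝ) : ℂ) := by
        rw [hωe, hme, ← hpq]
        have hβc : (β : ℂ) ≠ 0 := by exact_mod_cast hβ0
        simp only [pt]
        push_cast
        field_simp
        ring
      rw [h2, Complex.norm_real, Real.norm_eq_abs] at h1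
      rw [Real.dist_eq] at hdist
      have h4 : |-(μ - ν * (α / β)) - g| = |μ - ν * (α / β) + g| := by
        rw [← abs_neg]; congr 1; ring
      rw [h4] at hdist
      linarith
    · unfold Irrational at hrat
      push Not at hrat
      obtain ⟨r, hr⟩ := hrat
      refine ⟨r.num, r.den, β / r.den, ?_, ?_⟩
      · intro h0
        have := (pt_eq_zero _ _ h0).2
        have h5 := r.den_pos
        omega
      · have hrd : (r.den : ℝ) ≠ 0 := by exact_mod_cast r.den_pos.ne'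
        have h5 : α = β * (r.num / r.den) := by
          have h6 : (r : ℝ) = (r.num : ℝ) / (r.den : ℝ) := by
            exact_mod_cast (Rat.num_div_den r).symm
          rw [← h6, hr]; field_simp
        rw [hωe, h5]
        simp only [pt]
        have hrd' : (r.den : ℂ) ≠ 0 := by exact_mod_cast r.den_pos.ne'
        push_cast
        field_simp

/-- The union of the copies. -/
def TBG (k : ℕ) (x : Fin k → ℂ) (θ : Fin k → ℝ) : Set ℂ :=
  {z | ∃ (i : Fin k) (a b : ℤ), z = Complex.exp (θ i * Complex.I) * pt a b + x i}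

/-- Dense forests. -/
def DenseForest (D : Set ℂ) : Prop :=
  ∀ ε : ℝ, 0 < ε → ∃ V : ℝ, 0 < V ∧ ∀ p u : ℂ, ‖u‖ = 1 →
    ∃ t : ℝ, 0 ≤ t ∧ t ≤ V ∧ ∃ d ∈ D, ‖p + t * u - d‖ < ε

/-- Uniform discreteness. -/
def UnifDiscrete (D : Set ℂ) : Prop :=
  ∃ r : ℝ, 0 < r ∧ ∀ p ∈ D, ∀ q ∈ D, p ≠ q → r ≤ ‖p - q‖

theorem exp_norm (θ : ℝ) : ‖Complex.exp (θ * Complex.I)‖ = 1 := Complex.norm_exp_ofReal_mul_I θ

/-- One copy is never a dense forest. -/
theorem one_not (x : Fin 1 → ℂ) (θ : Fin 1 → ℝ) : ¬ DenseForest (TBG 1 x θ) := by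
  intro h
  obtain ⟨V, hV, h1⟩ := h (√3 / 4) (by have := s3pos; positivity)
  set u : ℂ := Complex.exp (θ 0 * Complex.I) with hu
  have hu1 : ‖u‖ = 1 := exp_norm _
  obtain ⟨t, _, _, d, ⟨i, a, b, rfl⟩, hlt⟩ := h1 (x 0 + u * ⟨0, √3 / 4⟩) u hu1
  have hi : i = 0 := Subsingleton.elim _ _
  subst hi
  have h2 : x 0 + u * ⟨0, √3 / 4⟩ + t * u - (u * pt a b + x 0) = u * (⟨0, √3 / 4⟩ + t - pt a b) := by
    ring
  rw [h2, norm_mul, hu1, one_mul] at hlt
  have h3 := (Complex.abs_im_le_norm ((⟨0, √3 / 4⟩ : ℂ) + t - pt a b)).trans_lt hlt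
  have h4 : ((⟨0, √3 / 4⟩ : ℂ) + t - pt a b).im = √3 / 4 * (1 - 2 * b) := by
    rw [Complex.sub_im, Complex.add_im, pt_im, Complex.ofReal_im]
    ring
  rw [h4, abs_mul, abs_of_pos (by have := s3pos; positivity)] at h3
  have h5 : (1 : ℝ) ≤ |1 - 2 * (b : ℝ)| := by
    have : (1 : ℤ) ≤ |1 - 2 * b| := Int.one_le_abs (by omega)
    exact_mod_cast this
  have := s3pos
  nlinarith

/-- Two copies rotated by `0` and `π/4` form a dense forest. -/
theorem two_forest (x : Fin 2 → ℂ) : DenseForest (TBG 2 x ![0, Real.pi / 4]) := by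
  intro ε hε
  by_contra hcon
  push Not at hcon
  set θ : Fin 2 → ℝ := ![0, Real.pi / 4] with hθ
  -- bad segments
  have hbad : ∀ n : ℕ, ∃ p u : ℂ, ‖u‖ = 1 ∧ ∀ t : ℝ, 0 ≤ t → t ≤ 2 * ((n : ℝ) + 1) →
      ∀ d ∈ TBG 2 x θ, ε ≤ ‖p + t * u - d‖ := fun n => by
    obtain ⟨p, u, hu, h⟩ := hcon (2 * ((n : ℝ) + 1)) (by positivity)
    exact ⟨p, u, hu, fun t h0 h1 d hd => h t h0 h1 d hd⟩
  choose p u hu1 hbad using hbad
  set e : Fin 2 → ℂ := fun i => Complex.exp (θ i * Complex.I) with he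
  have he1 : ∀ i, ‖e i‖ = 1 := fun i => exp_norm _
  have he0 : ∀ i, e i ≠ 0 := fun i => Complex.exp_ne_zero _
  set m : ℕ → ℂ := fun n => p n + ((n : ℝ) + 1 : ℝ) * u n with hm
  have hnear : ∀ (i : Fin 2) (n : ℕ), ∃ a b : ℤ, ‖(e i)⁻¹ * (m n - x i) - pt a b‖ ≤ 1 :=
    fun i n => near _
  choose A Bb hAB using hnear
  set r : Fin 2 → ℕ → ℂ := fun i n => (e i)⁻¹ * (m n - x i) - pt (A i n) (Bb i n) with hr
  have hcomp : ∀ n, ((r 0 n, r 1 n, u n) : ℂ × ℂ × ℂ) ∈ Metric.closedBall (0 : ℂ × ℂ × ℂ) 1 := by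
    intro n
    rw [mem_closedBall_zero_iff, Prod.norm_def, Prod.norm_def]
    exact max_le (hAB 0 n) (max_le (hAB 1 n) (hu1 n).le)
  obtain ⟨w, _, φ, hφ, hlim⟩ := (isCompact_closedBall (0 : ℂ × ℂ × ℂ) 1).tendsto_subseq hcomp
  set ω : ℂ := w.2.2 with hω
  have hlim3 : Tendsto (fun n => u (φ n)) atTop (𝓝 ω) :=
    (continuous_snd.comp continuous_snd).continuousAt.tendsto.comp hlim
  have hω1 : ‖ω‖ = 1 := by
    have h1 := hlim3.norm
    have h2 : (fun n => ‖u (φ n)‖) = fun _ => (1 : ℝ) := by funext n; exact hu1 _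
    rw [h2] at h1
    exact (tendsto_nhds_unique h1 tendsto_const_nhds)
  have hω0 : ω ≠ 0 := by
    intro h0; rw [h0, norm_zero] at hω1; exact zero_ne_one hω1
  have key : ∀ i : Fin 2, ∀ ρ : ℂ, Tendsto (fun n => r i (φ n)) atTop (𝓝 ρ) →
      ∃ (a b : ℤ) (s : ℝ), pt a b ≠ 0 ∧ (e i)⁻¹ * ω = s * pt a b := by
    intro i ρ hρ
    apply line_dir ρ ((e i)⁻¹ * ω) ε hε
    intro t a b
    have h1 : Tendsto (fun n => ‖r i (φ n) + t * ((e i)⁻¹ * u (φ n)) - pt a b‖) atTop
        (𝓝 ‖ρ + t * ((e i)⁻¹ * ω) - pt a b‖) :=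
      ((hρ.add ((hlim3.const_mul (e i)⁻¹).const_mul (t : ℂ))).sub_const _).norm
    refine ge_of_tendsto h1 ?_
    obtain ⟨N, hN⟩ := exists_nat_gt |t|
    filter_upwards [eventually_ge_atTop N] with n hn
    have hφn : N ≤ φ n := hn.trans (hφ.id_le n)
    have hφr : |t| < (φ n : ℝ) := hN.trans_le (by exact_mod_cast hφn)
    have ht := abs_lt.mp hφr
    have h2 := hbad (φ n) ((φ n : ℝ) + 1 + t) (by linarith) (by linarith)
      (e i * pt (A i (φ n) + a) (Bb i (φ n) + b) + x i) ⟨i, _, _, rfl⟩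
    have h3 : p (φ n) + (((φ n : ℝ) + 1 + t : ℝ) : ℂ) * u (φ n) -
        (e i * pt (A i (φ n) + a) (Bb i (φ n) + b) + x i) =
        e i * (r i (φ n) + t * ((e i)⁻¹ * u (φ n)) - pt a b) := by
      rw [← pt_add]
      simp only [hr, hm]
      have := he0 i
      push_cast
      field_simp
      ring
    rw [h3, norm_mul, he1, one_mul] at h2
    exact h2
  obtain ⟨a, b, s, hab, hs⟩ := key 0 w.1 (continuous_fst.continuousAt.tendsto.comp hlim)
  obtain ⟨c, d, s', hcd, hs'⟩ := key 1 w.2.1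
    ((continuous_fst.comp continuous_snd).continuousAt.tendsto.comp hlim)
  have he00 : e 0 = 1 := by simp [he, hθ]
  have he11 : e 1 = ⟨√2 / 2, √2 / 2⟩ := by
    simp only [he, hθ]
    rw [Complex.exp_mul_I, ← Complex.ofReal_cos, ← Complex.ofReal_sin]
    apply Complex.ext
    · simp [Real.cos_pi_div_four, Real.sin_pi_div_four]
    · simp [Real.cos_pi_div_four, Real.sin_pi_div_four]
  rw [he00, inv_one, one_mul] at hs
  have hs0 : s ≠ 0 := by
    rintro rfl
    rw [Complex.ofReal_zero, zero_mul] at hs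
    exact hω0 hs
  have hs0' : s' ≠ 0 := by
    rintro rfl
    rw [Complex.ofReal_zero, zero_mul] at hs'
    exact (mul_ne_zero (inv_ne_zero (he0 1)) hω0) hs'
  have h1 : (s : ℂ) * pt a b = e 1 * (s' * pt c d) := by
    rw [← hs, ← hs', ← mul_assoc, mul_inv_cancel₀ (he0 1), one_mul]
  -- multiply by the conjugate of pt a b
  have h2 : e 1 * (pt c d * (starRingEnd ℂ) (pt a b)) * s' = ((s * Complex.normSq (pt a b) : ℝ) : ℂ) := by
    have h3 : pt a b * (starRingEnd ℂ) (pt a b) = (Complex.normSq (pt a b) : ℂ) := Complex.mul_conj _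
    push_cast
    rw [← h3]
    linear_combination (-(starRingEnd ℂ) (pt a b)) * h1
  rw [pt_conj, pt_mul] at h2
  set X : ℤ := c * (a + b) - d * (-b) with hX
  set Y : ℤ := c * (-b) + d * (a + b) + d * (-b) with hY
  have h3 := congrArg Complex.im h2
  rw [Complex.ofReal_im, Complex.mul_im, Complex.mul_im, Complex.ofReal_im, Complex.ofReal_re,
    he11, pt_re, pt_im] at h3
  simp only at h3
  have h4 : √2 / 2 * s' * ((X : ℝ) + Y / 2 + Y * (√3 / 2)) = 0 := by linarith
  have h2p : 0 < √2 := Real.sqrt_pos.mpr (by norm_num)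
  have h5 : (X : ℝ) + Y / 2 + Y * (√3 / 2) = 0 := by
    rcases mul_eq_zero.mp h4 with h6 | h6
    · rcases mul_eq_zero.mp h6 with h7 | h7
      · linarith
      · exact absurd h7 hs0'
    · exact h6
  have hY0 : Y = 0 := by
    by_contra hne
    have hYr : (Y : ℝ) ≠ 0 := by exact_mod_cast hne
    have h6 : √3 = ((-(2 * X + Y) / Y : ℚ) : ℝ) := by
      push_cast
      field_simp
      linarith
    have h7 : Irrational √3 := by
      have := Nat.Prime.irrational_sqrt (by norm_num : Nat.Prime 3)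
      exact_mod_cast this
    exact h7 ⟨_, h6.symm⟩
  have hX0 : X = 0 := by
    rw [hY0] at h5
    push_cast at h5
    have : (X : ℝ) = 0 := by linarith
    exact_mod_cast this
  -- so the product vanishes
  have h6 : pt c d * (starRingEnd ℂ) (pt a b) = 0 := by
    rw [pt_conj, pt_mul, ← hX, ← hY, hX0, hY0]
    simp [pt]
  rcases mul_eq_zero.mp h6 with h7 | h7
  · exact hcd h7
  · exact hab ((map_eq_zero _).mp h7)

end Pool.Agent.Q3.Forest
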