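import Pool.Agent.Q3.Forest.Core

/-!
# No uniformly discrete dense forest
-/

set_option autoImplicit false

open Filter Topology

namespace Pool.Agent.Q3.Forest

/-- In a uniformly discrete union the difference groups are discrete. -/
theorem diff_discrete (k : ℕ) (x : Fin k → ℂ) (θ : Fin k → ℝ) (r : ℝ) 
    (h : ∀ p ∈ TBG k x θ, ∀ q ∈ TBG k x θ, p ≠ q → r ≤ ‖p - q‖) (i j : Fin k) (a b c d : ℤ)
    (hne : Complex.exp (θ i * Complex.I) * pt a b - Complex.exp (θ j * Complex.I) * pt c d ≠ 0) :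
    r ≤ ‖Complex.exp (θ i * Complex.I) * pt a b - Complex.exp (θ j * Complex.I) * pt c d‖ := by
  set ui := Complex.exp (θ i * Complex.I) with hui
  set uj := Complex.exp (θ j * Complex.I) with huj
  set g := ui * pt a b - uj * pt c d with hg
  obtain ⟨m, n, hmn⟩ := near (-(x i - x j) / g)
  have hgn : 0 < ‖g‖ := norm_pos_iff.mpr hne
  have h1 : ‖-(x i - x j) - pt m n * g‖ ≤ ‖g‖ := by
    have h2 : -(x i - x j) - pt m n * g = (-(x i - x j) / g - pt m n) * g := by
      field_simp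
    rw [h2, norm_mul]
    nlinarith
  -- the two points
  have hpts : ∀ m n : ℤ, ∃ p ∈ TBG k x θ, ∃ q ∈ TBG k x θ, p - q = pt m n * g + (x i - x j) := by
    intro m n
    refine ⟨ui * (pt m n * pt a b) + x i, ?_, uj * (pt m n * pt c d) + x j, ?_, ?_⟩
    · rw [pt_mul]; exact ⟨i, _, _, rfl⟩
    · rw [pt_mul]; exact ⟨j, _, _, rfl⟩
    · rw [hg]; ring
  by_cases h0 : pt m n * g + (x i - x j) = 0
  · obtain ⟨p, hp, q, hq, hpq⟩ := hpts (m + 1) n
    have h3 : pt (m + 1) n * g + (x i - x j) = g := by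
      have h4 : pt (m + 1) n = pt m n + 1 := by simp only [pt]; push_cast; ring
      rw [h4]; linear_combination h0
    rw [h3] at hpq
    have h5 : p ≠ q := by
      intro h6; rw [h6, sub_self] at hpq; exact hne hpq.symm
    have h7 := h p hp q hq h5
    rwa [hpq] at h7
  · obtain ⟨p, hp, q, hq, hpq⟩ := hpts m n
    have h5 : p ≠ q := by
      intro h6; rw [h6, sub_self] at hpq; exact h0 hpq.symm
    have h7 := h p hp q hq h5
    rw [hpq] at h7
    have h8 : ‖pt m n * g + (x i - x j)‖ = ‖-(x i - x j) - pt m n * g‖ := by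
      rw [← norm_neg]; congr 1; ring
    rw [h8] at h7
    exact h7.trans h1

/-- A multiple of each rotation lies in the first lattice. -/
theorem commens (u v : ℂ) (hv : v ≠ 0) (r : ℝ) (hr : 0 < r) (hv1 : ‖v‖ = 1)
    (h : ∀ a b c d : ℤ, u * pt a b - v * pt c d ≠ 0 → r ≤ ‖u * pt a b - v * pt c d‖) :
    ∃ n : ℕ, 0 < n ∧ ∃ a b : ℤ, (n : ℂ) * u = v * pt a b := by
  have hnear : ∀ n : ℕ, ∃ a b : ℤ, ‖(n : ℂ) * u / v - pt a b‖ ≤ 1 := fun n => near _
  choose A B hAB using hnear
  have hcomp : ∀ n : ℕ, (n : ℂ) * u / v - pt (A n) (B n) ∈ Metric.closedBall (0 : ℂ) 1 := by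
    intro n
    rw [mem_closedBall_zero_iff]
    exact hAB n
  obtain ⟨w, _, φ, hφ, hlim⟩ := (isCompact_closedBall (0 : ℂ) 1).tendsto_subseq hcomp
  have hc := hlim.cauchySeq
  rw [Metric.cauchySeq_iff] at hc
  obtain ⟨N, hN⟩ := hc r hr
  have h1 := hN (N + 1) (by omega) N le_rfl
  simp only [Function.comp] at h1
  have hlt : φ N < φ (N + 1) := hφ (Nat.lt_succ_self N)
  set p := φ (N + 1) with hp
  set q := φ N with hq
  rw [dist_eq_norm] at h1
  have h2 : ((p : ℂ) * u / v - pt (A p) (B p) - ((q : ℂ) * u / v - pt (A q) (B q))) =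
      (u * pt ((p : ℤ) - q) 0 - v * pt (A p - A q) (B p - B q)) / v := by
    rw [← pt_sub]
    simp only [pt]
    push_cast
    field_simp
    ring
  rw [h2, norm_div, hv1, div_one] at h1
  refine ⟨p - q, by omega, A p - A q, B p - B q, ?_⟩
  by_contra hne
  have h3 : u * pt ((p : ℤ) - q) 0 - v * pt (A p - A q) (B p - B q) ≠ 0 := by
    intro h4
    apply hne
    have h5 : ((p - q : ℕ) : ℂ) = pt ((p : ℤ) - q) 0 := by
      rw [Nat.cast_sub hlt.le]
      simp [pt]
    rw [h5]
    linear_combination h4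
  exact absurd (h _ _ _ _ h3) (not_le.mpr h1)

/-- There is no uniformly discrete dense forest among the unions. -/
theorem no_ud (k : ℕ) (x : Fin k → ℂ) (θ : Fin k → ℝ) (hD : DenseForest (TBG k x θ))
    (hU : UnifDiscrete (TBG k x θ)) : False := by
  rcases Nat.eq_zero_or_pos k with rfl | hk
  · obtain ⟨V, _, h⟩ := hD 1 one_pos
    obtain ⟨t, _, _, d, ⟨i, _⟩, _⟩ := h 0 1 (by simp)
    exact i.elim0
  obtain ⟨r, hr, h⟩ := hU
  set o : Fin k := ⟨0, hk⟩ with ho
  set v := Complex.exp (θ o * Complex.I) with hv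
  have hv0 : v ≠ 0 := Complex.exp_ne_zero _
  have hv1 : ‖v‖ = 1 := exp_norm _
  have hcom : ∀ i : Fin k, ∃ n : ℕ, 0 < n ∧ ∃ a b : ℤ,
      (n : ℂ) * Complex.exp (θ i * Complex.I) = v * pt a b := fun i =>
    commens _ v hv0 r hr hv1 (fun a b c d hne => diff_discrete k x θ r h i o a b c d hne)
  choose n hn hn2 using hcom
  set N : ℕ := ∏ i, n i with hN
  have hNpos : 0 < N := Finset.prod_pos (fun i _ => hn i)
  have hNr : (0 : ℝ) < N := by exact_mod_cast hNpos
  have hall : ∀ i : Fin k, ∃ a b : ℤ, (N : ℂ) * Complex.exp (θ i * Complex.I) = v * pt a b := by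
    intro i
    obtain ⟨a, b, hab⟩ := hn2 i
    obtain ⟨m, hm⟩ := Finset.dvd_prod_of_mem n (Finset.mem_univ i)
    refine ⟨m * a, m * b, ?_⟩
    have h1 : (N : ℂ) = n i * m := by
      rw [hN, hm]; push_cast; ring
    have h2 : pt (m * a) (m * b) = m * pt a b := by simp only [pt]; push_cast; ring
    rw [h1, h2]
    linear_combination (m : ℂ) * hab
  set s : ℝ := √3 / 2 / N with hs
  have hspos : 0 < s := by have := s3pos; positivity
  -- heights
  have hheight : ∀ z ∈ TBG k x θ, ∃ (i : Fin k) (m : ℤ), (z / v).im = (x i / v).im + m * s := by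
    rintro z ⟨i, a, b, rfl⟩
    obtain ⟨c, d, hcd⟩ := hall i
    have h1 : (Complex.exp (θ i * Complex.I) * pt a b + x i) / v =
        x i / v + (((1 : ℝ) / N : ℝ) : ℂ) * (pt c d * pt a b) := by
      have hNc : (N : ℂ) ≠ 0 := by exact_mod_cast hNpos.ne'
      push_cast
      field_simp
      linear_combination pt a b * hcd
    rw [h1, pt_mul]
    refine ⟨i, c * b + d * a + d * b, ?_⟩
    rw [Complex.add_im, Complex.im_ofReal_mul, pt_im, hs]
    push_cast
    ring
  -- a height that is avoided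
  set c : Fin k → ℝ := fun i => (x i / v).im with hc
  have hcount : (⋃ i : Fin k, Set.range (fun m : ℤ => c i + m * s)).Countable :=
    Set.countable_iUnion (fun i => Set.countable_range _)
  obtain ⟨t, ht⟩ := (hcount.dense_compl ℝ).nonempty
  have ht' : ∀ (i : Fin k) (m : ℤ), t ≠ c i + m * s := by
    intro i m he
    apply ht
    exact Set.mem_iUnion.mpr ⟨i, m, he.symm⟩
  have : Nonempty (Fin k) := ⟨o⟩
  obtain ⟨i₀, hi₀⟩ := Finite.exists_min (fun i : Fin k => |(t - c i) / s - round ((t - c i) / s)|)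
  set δ : ℝ := s * |(t - c i₀) / s - round ((t - c i₀) / s)| with hδ
  have hδpos : 0 < δ := by
    apply mul_pos hspos
    rw [abs_pos]
    intro h0
    apply ht' i₀ (round ((t - c i₀) / s))
    have h1 : (t - c i₀) / s = (round ((t - c i₀) / s) : ℤ) := by linarith
    have h2 : t - c i₀ = (round ((t - c i₀) / s) : ℤ) * s := by
      rw [← h1]; field_simp
    linarith
  obtain ⟨V, _, hV⟩ := hD δ hδpos
  obtain ⟨τ, _, _, z, hz, hlt⟩ := hV (v * ⟨0, t⟩) v hv1
  obtain ⟨i, m, him⟩ := hheight z hz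
  have h1 : v * ⟨0, t⟩ + τ * v - z = v * ((⟨0, t⟩ : ℂ) + τ - z / v) := by
    field_simp
  rw [h1, norm_mul, hv1, one_mul] at hlt
  have h2 := (Complex.abs_im_le_norm ((⟨0, t⟩ : ℂ) + τ - z / v)).trans_lt hlt
  have h3 : ((⟨0, t⟩ : ℂ) + τ - z / v).im = t - (c i + m * s) := by
    rw [Complex.sub_im, Complex.add_im, Complex.ofReal_im, him]
    ring
  rw [h3] at h2
  have h4 := hi₀ i
  have h5 := round_le ((t - c i) / s) m
  have h6 : |t - (c i + m * s)| = s * |(t - c i) / s - m| := by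
    rw [← abs_of_pos hspos, ← abs_mul, abs_of_pos hspos]
    congr 1
    field_simp
    ring
  rw [h6] at h2
  have h7 := lt_of_mul_lt_mul_left h2 hspos.le
  linarith

end Pool.Agent.Q3.Forest
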